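import Pool.Agent.Helper42.SP.J
import Pool.Agent.Helper42.SP.X3
import Pool.Agent.Helper42.SP.X4

/-!
# AD-A7: choice of all parameters

`e2 = e1/80`, `e = 4 e2` (the margin), `e3 = e1 ε/160`, `m = ⌈3/e1⌉₊`, `Jm = ⌊1/ε⌋₊ + 4`; `J` from `choose_J`, the conditions on the
separation from `hyp_ok`, the last inequality from `final_bound` with `c = Cg + 45 Jm²`.
-/

open Real Set Filter Topology

set_option autoImplicit false

namespace Pool.Agent.Helper42.AD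

open Pool.Agent.Helper22.AE Pool.Agent.Helper42.SP

/-- the mean bound of the stub is at most `Bnd` -/
private theorem bnd_cmp42 {Cg c R₀ x η M : ℝ} {s J Jm : ℕ} (hCg : 0 ≤ Cg) (hc : c = Cg + 45 * (Jm : ℝ) ^ 2) (hR₀ : 0 ≤ R₀)
    (hx : 1 ≤ x) (hM : 1 ≤ M) (hη : 0 ≤ η) (hJ1 : 1 ≤ J) (hJ : J ≤ Jm) :
    8 * M ^ s * M ^ J * ((8 * J * x + 1) * (5 * J * x / M ^ s + 1) * (Cg * (x / (M ^ s) ^ 2) *
      (R₀ * (Dc x M (s + 1) ^ J * ((2 * rr J M η (s + 1) + 1) * (2 * rr J M η (s + 1) * (1 / (2 * M ^ (s + 1))) + 1)) +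
        Dc x M (s + 1) ^ (2 * J) * exp (-(π / 16) * R₀ ^ 2 * η ^ 2))))) ≤ Bnd c R₀ x η M s J := by
  have hM0 : 0 < M := by linarith
  have hx0 : 0 < x := by linarith
  have hMs : 0 < M ^ s := by positivity
  have hJr : (1 : ℝ) ≤ J := by exact_mod_cast hJ1
  have hJJ : (J : ℝ) ≤ Jm := by exact_mod_cast hJ
  have hexp : -(π / 16) * R₀ ^ 2 * η ^ 2 = -(π / 4) * (R₀ / 2) ^ 2 * η ^ 2 := by ring
  have hrr0 : 0 ≤ rr J M η (s + 1) := by unfold rr; positivity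
  have hD0 : 0 ≤ Dc x M (s + 1) := le_trans zero_le_one (one_le_Dc hx hM0.le _)
  obtain ⟨T, hT⟩ : ∃ T : ℝ, T = Dc x M (s + 1) ^ J * ((2 * rr J M η (s + 1) + 1) *
      (2 * rr J M η (s + 1) * (1 / (2 * M ^ (s + 1))) + 1)) +
        Dc x M (s + 1) ^ (2 * J) * exp (-(π / 4) * (R₀ / 2) ^ 2 * η ^ 2) := ⟨_, rfl⟩
  have hT0 : 0 ≤ T := by rw [hT]; positivity
  unfold Bnd
  rw [hexp, ← hT]
  have hc0 : 0 ≤ c := by rw [hc]; positivity
  have h1 : (8 * J * x + 1) * (5 * J * x / M ^ s + 1) ≤ c * (x ^ 2 / M ^ s + x) := by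
    have h2 : 8 * (J : ℝ) * x + 1 ≤ 9 * Jm * x := by
      have : (1 : ℝ) ≤ J * x := one_le_mul_of_one_le_of_one_le hJr hx
      calc 8 * (J : ℝ) * x + 1 ≤ 9 * (J * x) := by linarith
        _ ≤ 9 * (Jm * x) := by gcongr
        _ = _ := by ring
    have h3 : 5 * (J : ℝ) * x / M ^ s + 1 ≤ 5 * Jm * (x / M ^ s + 1) := by
      have h4 : 5 * (J : ℝ) * x / M ^ s ≤ 5 * Jm * (x / M ^ s) := by
        rw [mul_div_assoc]
        gcongr
      have h5 : (1 : ℝ) ≤ 5 * Jm := by linarith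
      linarith
    have h6 : (45 : ℝ) * (Jm : ℝ) ^ 2 ≤ c := by rw [hc]; linarith
    calc (8 * J * x + 1) * (5 * J * x / M ^ s + 1) ≤ (9 * Jm * x) * (5 * Jm * (x / M ^ s + 1)) :=
          mul_le_mul h2 h3 (by positivity) (by positivity)
      _ = 45 * (Jm : ℝ) ^ 2 * (x ^ 2 / M ^ s + x) := by ring
      _ ≤ _ := mul_le_mul_of_nonneg_right h6 (by positivity)
  have h7 : Cg * (x / (M ^ s) ^ 2) * (R₀ * T) ≤ (1 + c * R₀ * x / M ^ (2 * s)) * T := by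
    have h8 : (M ^ s) ^ 2 = M ^ (2 * s) := by rw [← pow_mul, mul_comm]
    rw [h8]
    have h9 : Cg * (x / M ^ (2 * s)) * R₀ ≤ 1 + c * R₀ * x / M ^ (2 * s) := by
      have h10 : Cg ≤ c := by
        rw [hc]
        have : (0 : ℝ) ≤ 45 * (Jm : ℝ) ^ 2 := by positivity
        linarith
      have h11 : Cg * (x / M ^ (2 * s)) * R₀ ≤ c * (x / M ^ (2 * s)) * R₀ := by gcongr
      have h12 : c * (x / M ^ (2 * s)) * R₀ = c * R₀ * x / M ^ (2 * s) := by ring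
      linarith
    calc Cg * (x / M ^ (2 * s)) * (R₀ * T) = (Cg * (x / M ^ (2 * s)) * R₀) * T := by ring
      _ ≤ _ := mul_le_mul_of_nonneg_right h9 hT0
  calc 8 * M ^ s * M ^ J * ((8 * J * x + 1) * (5 * J * x / M ^ s + 1) * (Cg * (x / (M ^ s) ^ 2) * (R₀ * T)))
      ≤ 8 * M ^ s * M ^ J * ((c * (x ^ 2 / M ^ s + x)) * ((1 + c * R₀ * x / M ^ (2 * s)) * T)) := by
        refine mul_le_mul_of_nonneg_left (mul_le_mul h1 h7 (by positivity) (by positivity)) (by positivity)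
    _ = _ := by ring

theorem exponents2 {ε e1 : ℝ} (hε : 0 < ε) (hε1 : ε ≤ 1) (he1 : 0 < e1) (he11 : e1 ≤ 1) :
    ∃ (m : ℕ) (e2 e3 : ℝ), 1 ≤ m ∧ 0 < e2 ∧ e2 ≤ 1 / 4 ∧ 0 < e3 ∧ ∀ Cg : ℝ, 0 ≤ Cg → ∃ C R₁ : ℝ, 0 < C ∧ 1 ≤ R₁ ∧
      ∀ R₀ : ℝ, R₁ ≤ R₀ → ∀ x : ℝ, R₀ ^ ε ≤ x → x ≤ R₀ ^ (1 / 2 + e2) →
      ∀ M : ℕ, M = ⌊x ^ (1 / (2 * (m : ℝ)))⌋₊ → ∀ Jm : ℕ, Jm = ⌊1 / ε⌋₊ + 4 →
        1 ≤ M ∧ (M : ℝ) ^ m ≤ x ^ (1 / 2 : ℝ) ∧ 2 * (8 * (4 * (Jm : ℝ)) ^ m * Dc x M m) * 20 ≤ x ^ (3 / 2 + e1) ∧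
        ∀ s < m, ∃ J : ℕ, 3 ≤ J ∧ J ≤ Jm ∧
          J * 4 ^ J * (2 * R₀ ^ (-1 + e3)) ≤ x * (1 / (2 * (M : ℝ) ^ (s + 1))) ^ (2 * J - 1) ∧
          50 * J * 4 ^ J * R₀ ^ (-1 + e3) < (1 / (2 * (M : ℝ) ^ (s + 1))) ^ (2 * J - 3) ∧
          (2 * (8 * (4 * (Jm : ℝ)) ^ m * (2 * M)) * m * 20 / x ^ (3 / 2 + e1)) ^ (2 * J) *
            (20 * (8 * (M : ℝ) ^ s * M ^ J * ((8 * J * x + 1) * (5 * J * x / M ^ s + 1) * (Cg * (x / ((M : ℝ) ^ s) ^ 2) *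
              (R₀ * (Dc x M (s + 1) ^ J *
                ((2 * rr J M (R₀ ^ (-1 + e3)) (s + 1) + 1) * (2 * rr J M (R₀ ^ (-1 + e3)) (s + 1) * (1 / (2 * (M : ℝ) ^ (s + 1))) + 1)) +
                Dc x M (s + 1) ^ (2 * J) * exp (-(π / 16) * R₀ ^ 2 * (R₀ ^ (-1 + e3)) ^ 2))))))) ≤
            C * x ^ (-e1) := by
  set e2 : ℝ := e1 / 80 with he2
  set e3 : ℝ := e1 * ε / 160 with he3
  set m : ℕ := ⌈3 / e1⌉₊ with hm
  set Jm0 : ℕ := ⌊1 / ε⌋₊ + 4 with hJm0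
  have he2p : 0 < e2 := by positivity
  have he3p : 0 < e3 := by positivity
  have hm1 : 1 ≤ m := Nat.one_le_iff_ne_zero.mpr (Nat.ceil_pos.mpr (by positivity)).ne'
  have hm3 : 3 / e1 ≤ m := Nat.le_ceil _
  have hmR : (1:ℝ) ≤ m := by exact_mod_cast hm1
  refine ⟨m, e2, e3, hm1, he2p, by rw [he2]; linarith, he3p, fun Cg hCg => ?_⟩
  obtain ⟨c, hc⟩ : ∃ c : ℝ, c = Cg + 45 * (Jm0 : ℝ) ^ 2 := ⟨_, rfl⟩
  have hc0 : 0 ≤ c := by rw [hc]; positivity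
  have hεe : 0 < ε * e1 := by positivity
  obtain ⟨Ra, hRa1, hRa⟩ := hyp_ok (e := 4 * e2) (e3 := e3) hε (by positivity)
    (by rw [he3, he2]; nlinarith) hm1 Jm0
  obtain ⟨C, Rb, hC, hRb1, hRb⟩ := final_bound (e := 4 * e2) (e3 := e3) (e1 := e1) hε he1
    (by rw [he2]; linarith) he3p (by rw [he3]; nlinarith) hm1 hm3 Jm0 hc0
  set C' : ℝ := 2 * (8 * (4 * (Jm0 : ℝ)) ^ m * (10 * (5 * 2 ^ m + 1))) * 20 with hC'
  have hC'0 : 0 ≤ C' := by positivity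
  set X0 : ℝ := max ((2:ℝ) ^ (2 * m)) (max (C' ^ (1 / e1)) 2) with hX0
  have hX02 : (2:ℝ) ≤ X0 := (le_max_right _ _).trans (le_max_right _ _)
  refine ⟨C, max (max Ra Rb) (max (X0 ^ (1 / ε)) 2), hC,
    le_trans (by norm_num) ((le_max_right _ _).trans (le_max_right _ _)), ?_⟩
  intro R₀ hR₀ x hx1 hx2 M hM Jm hJm
  have hR2 : (2:ℝ) ≤ R₀ := ((le_max_right _ _).trans (le_max_right _ _)).trans hR₀
  have hRaR : Ra ≤ R₀ := ((le_max_left _ _).trans (le_max_left _ _)).trans hR₀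
  have hRbR : Rb ≤ R₀ := ((le_max_right _ _).trans (le_max_left _ _)).trans hR₀
  have hRc : X0 ^ (1 / ε) ≤ R₀ := ((le_max_left _ _).trans (le_max_right _ _)).trans hR₀
  have hR0 : (0:ℝ) < R₀ := by linarith
  have hxX : X0 ≤ x := by
    refine le_trans ?_ hx1
    calc X0 = (X0 ^ (1 / ε)) ^ ε := by
          rw [← Real.rpow_mul (by linarith), one_div_mul_cancel hε.ne', Real.rpow_one]
      _ ≤ R₀ ^ ε := Real.rpow_le_rpow (by positivity) hRc hε.le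
  have hx2' : (2:ℝ) ≤ x := hX02.trans hxX
  have hx0 : (0:ℝ) < x := by linarith
  have hxpow : (2:ℝ) ^ (2 * m) ≤ x := (le_max_left _ _).trans hxX
  have hlogR : 0 < Real.log R₀ := Real.log_pos (by linarith)
  have hlogx : 0 < Real.log x := Real.log_pos (by linarith)
  have hxR : x ≤ R₀ := by
    refine hx2.trans ?_
    calc R₀ ^ (1 / 2 + e2) ≤ R₀ ^ (1:ℝ) :=
          Real.rpow_le_rpow_of_exponent_le (by linarith) (by rw [he2]; linarith)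
      _ = R₀ := Real.rpow_one _
  set r : ℝ := Real.log R₀ / Real.log x with hr
  have hr1 : r ≤ 1 / ε := by
    rw [hr, div_le_div_iff₀ hlogx hε, one_mul]
    have := Real.log_le_log (by positivity) hx1
    rw [Real.log_rpow hR0] at this
    linarith
  have hr2 : 2 - 4 * e2 ≤ r := by
    rw [hr, le_div_iff₀ hlogx]
    have := Real.log_le_log hx0 hx2
    rw [Real.log_rpow hR0] at this
    have h2 : 0 ≤ 2 - 4 * e2 := by rw [he2]; linarith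
    calc (2 - 4 * e2) * Real.log x ≤ (2 - 4 * e2) * ((1 / 2 + e2) * Real.log R₀) :=
          mul_le_mul_of_nonneg_left this h2
      _ = (1 - 4 * e2 ^ 2) * Real.log R₀ := by ring
      _ ≤ 1 * Real.log R₀ := mul_le_mul_of_nonneg_right (by nlinarith [sq_nonneg e2]) hlogR.le
      _ = Real.log R₀ := one_mul _
  have hJeq : Jm = Jm0 := hJm
  have hfp := floor_pow hm1 hxpow hM 1
  have hM1 : 1 ≤ M := by omega
  refine ⟨hM1, ?_, ?_, ?_⟩
  · have h := (floor_pow hm1 hxpow hM m).2.1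
    have e1' : (m : ℝ) / (2 * m) = 1 / 2 := by
      have : (m : ℝ) ≠ 0 := by positivity
      field_simp
    rwa [e1'] at h
  · have hD := Dc_le hm1 hxpow hM (le_refl m)
    have e1' : (2:ℝ) - (m : ℝ) / (2 * m) = 3 / 2 := by
      have : (m : ℝ) ≠ 0 := by positivity
      field_simp
      norm_num
    rw [e1'] at hD
    have hxe : C' ≤ x ^ e1 := by
      have h1 : C' ^ (1 / e1) ≤ x := ((le_max_left _ _).trans (le_max_right _ _)).trans hxX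
      calc C' = (C' ^ (1 / e1)) ^ e1 := by
            rw [← Real.rpow_mul hC'0, one_div_mul_cancel he1.ne', Real.rpow_one]
        _ ≤ x ^ e1 := Real.rpow_le_rpow (by positivity) h1 he1.le
    rw [hJeq]
    calc 2 * (8 * (4 * (Jm0 : ℝ)) ^ m * Dc x M m) * 20
        ≤ 2 * (8 * (4 * (Jm0 : ℝ)) ^ m * (10 * (5 * 2 ^ m + 1) * x ^ ((3:ℝ) / 2))) * 20 := by
          refine mul_le_mul_of_nonneg_right (mul_le_mul_of_nonneg_left
            (mul_le_mul_of_nonneg_left hD (by positivity)) (by norm_num)) (by norm_num)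
      _ = C' * x ^ ((3:ℝ) / 2) := by rw [hC']; ring
      _ ≤ x ^ e1 * x ^ ((3:ℝ) / 2) := mul_le_mul_of_nonneg_right hxe (by positivity)
      _ = x ^ (3 / 2 + e1) := by
          rw [← Real.rpow_add hx0]
          congr 1
          ring
  · intro s hs
    have hd0 : 0 < ((s : ℝ) + 1) / (2 * m) := by positivity
    have hd1 : ((s : ℝ) + 1) / (2 * m) ≤ 1 / 2 := by
      rw [div_le_div_iff₀ (by positivity) (by norm_num)]
      have : ((s : ℝ) + 1) ≤ m := by exact_mod_cast hs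
      linarith
    obtain ⟨J, hJ3, hJ4, hJ5, hJ6⟩ := Pool.Agent.Helper42.SP.choose_J (r := r) (d := ((s : ℝ) + 1) / (2 * m)) (e := 4 * e2)
      (by positivity) (by rw [he2]; linarith) hr2 hd0 hd1
    have hJJm : J ≤ Jm0 := by
      have h1 : (J : ℝ) ≤ 1 / ε + 4 := by linarith
      have h2 : J ≤ ⌊1 / ε + (4:ℕ)⌋₊ := Nat.le_floor (by push_cast; exact h1)
      rwa [Nat.floor_add_natCast (by positivity)] at h2
    have hh := hRa R₀ hRaR x hx1 s hs J (by omega) hJJm hJ5 M hM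
    have hf := hRb R₀ hRbR x hx1 hxR s hs J (by omega) hJJm hJ6 M hM
    refine ⟨J, hJ3, by rw [hJeq]; exact hJJm, hh.1, hh.2, ?_⟩
    rw [hJeq]
    refine le_trans ?_ hf
    have hη : 0 ≤ R₀ ^ (-1 + e3) := Real.rpow_nonneg hR0.le _
    have hMr : (1 : ℝ) ≤ M := by exact_mod_cast hM1
    have hcmp := bnd_cmp42 (s := s) (J := J) (Jm := Jm0) (x := x) (M := (M : ℝ)) hCg hc hR0.le (by linarith) hMr hη
      (by omega) hJJm
    refine mul_le_mul_of_nonneg_left (mul_le_mul_of_nonneg_left hcmp (by norm_num)) (by positivity)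

end Pool.Agent.Helper42.AD
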